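import Pool.Agent.Helper70.Isg.Goals2

/-!
# Packet GIBX for MP_600500_pr
-/

open MeasureTheory Filter Topology

noncomputable section

namespace Pool.Agent.Helper98.Isg

open Pool.Agent.Helper70.Isg

variable {d : ℕ}

theorem measurable_glue (Λ : Finset (Site d)) (τ : Λ → Bool) :
    Measurable (glue Λ τ : Cfg d → Cfg d) := by
  refine measurable_pi_lambda _ fun v => ?_
  unfold glue
  by_cases h : v ∈ Λ
  · simp only [h, dif_pos]; exact measurable_const
  · simp only [h, dif_neg, not_false_iff]; exact measurable_pi_apply v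

theorem measurable_sg (v : Site d) : Measurable (fun σ : Cfg d => sg (σ v)) :=
  (measurable_of_countable sg).comp (measurable_pi_apply v)

theorem measurable_wt (β : ℝ) (Λ : Finset (Site d)) : Measurable (wt β Λ : Cfg d → ℝ) := by
  unfold wt enrg
  refine Real.measurable_exp.comp (Measurable.const_mul ?_ β)
  refine Finset.measurable_sum _ fun u _ => Finset.measurable_sum _ fun v _ => ?_
  exact Measurable.const_mul ((measurable_sg u).mul (measurable_sg v)) _

theorem measurable_pf (β : ℝ) (Λ : Finset (Site d)) : Measurable (pf β Λ : Cfg d → ℝ) := by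
  unfold pf
  exact Finset.measurable_sum _ fun τ _ => (measurable_wt β Λ).comp (measurable_glue Λ τ)

theorem wt_pos' (β : ℝ) (Λ : Finset (Site d)) (σ : Cfg d) : 0 < wt β Λ σ := Real.exp_pos _

theorem pf_pos' (β : ℝ) (Λ : Finset (Site d)) (σ : Cfg d) : 0 < pf β Λ σ := by
  unfold pf
  exact Finset.sum_pos (fun τ _ => wt_pos' _ _ _) Finset.univ_nonempty

/-- conditional probability of `τ` -/
def cw (β : ℝ) (Λ : Finset (Site d)) (τ : Λ → Bool) (η : Cfg d) : ℝ :=
  wt β Λ (glue Λ τ η) / pf β Λ η

theorem cw_nonneg (β : ℝ) (Λ : Finset (Site d)) (τ : Λ → Bool) (η : Cfg d) : 0 ≤ cw β Λ τ η :=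
  div_nonneg (wt_pos' _ _ _).le (pf_pos' _ _ _).le

theorem measurable_cw (β : ℝ) (Λ : Finset (Site d)) (τ : Λ → Bool) :
    Measurable (cw β Λ τ : Cfg d → ℝ) :=
  ((measurable_wt β Λ).comp (measurable_glue Λ τ)).div (measurable_pf β Λ)

theorem ev_eq (β : ℝ) (Λ : Finset (Site d)) (η : Cfg d) (f : Cfg d → ℝ) :
    ev β Λ η f = ∑ τ : Λ → Bool, f (glue Λ τ η) * cw β Λ τ η := by
  unfold ev cw
  rw [Finset.sum_div]
  exact Finset.sum_congr rfl fun τ _ => by rw [mul_div_assoc]

/-- the averaged specification as a measure -/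
def kap (β : ℝ) (Λ : Finset (Site d)) (ν : Measure (Cfg d)) : Measure (Cfg d) :=
  ∑ τ : Λ → Bool, (ν.withDensity fun η => ENNReal.ofReal (cw β Λ τ η)).map (glue Λ τ)

theorem kap_apply (β : ℝ) (Λ : Finset (Site d)) (ν : Measure (Cfg d)) (B : Set (Cfg d))
    (hB : MeasurableSet B) :
    kap β Λ ν B = ∫⁻ η, ENNReal.ofReal (ev β Λ η (B.indicator 1)) ∂ν := by
  unfold kap
  rw [Measure.finsetSum_apply]
  have h1 : ∀ η, ENNReal.ofReal (ev β Λ η (B.indicator 1)) =
      ∑ τ : Λ → Bool, ((glue Λ τ) ⁻¹' B).indicator (fun η => ENNReal.ofReal (cw β Λ τ η)) η := by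
    intro η
    rw [ev_eq, ENNReal.ofReal_sum_of_nonneg]
    · refine Finset.sum_congr rfl fun τ _ => ?_
      by_cases h : glue Λ τ η ∈ B
      · rw [Set.indicator_of_mem h, Set.indicator_of_mem (by exact h)]
        simp
      · rw [Set.indicator_of_notMem h, Set.indicator_of_notMem (by exact h)]
        simp
    · intro τ _
      refine mul_nonneg ?_ (cw_nonneg _ _ _ _)
      exact Set.indicator_nonneg (fun _ _ => zero_le_one) _
  simp_rw [h1]
  rw [lintegral_finsetSum]
  · refine Finset.sum_congr rfl fun τ _ => ?_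
    rw [Measure.map_apply (measurable_glue Λ τ) hB,
      withDensity_apply _ (measurable_glue Λ τ hB), lintegral_indicator (measurable_glue Λ τ hB)]
  · intro τ _
    exact (measurable_cw β Λ τ).ennreal_ofReal.indicator (measurable_glue Λ τ hB)

theorem measurable_ev (β : ℝ) (Λ : Finset (Site d)) (B : Set (Cfg d)) (hB : MeasurableSet B) :
    Measurable fun η => ev β Λ η (B.indicator 1) := by
  simp_rw [ev_eq]
  refine Finset.measurable_sum _ fun τ _ => Measurable.mul ?_ (measurable_cw β Λ τ)
  exact (measurable_one.indicator hB).comp (measurable_glue Λ τ)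

theorem ev_nonneg_ind (β : ℝ) (Λ : Finset (Site d)) (B : Set (Cfg d)) (η : Cfg d) :
    0 ≤ ev β Λ η (B.indicator 1) := by
  rw [ev_eq]
  exact Finset.sum_nonneg fun τ _ => mul_nonneg (Set.indicator_nonneg (fun _ _ => zero_le_one) _)
    (cw_nonneg _ _ _ _)

theorem kap_real (β : ℝ) (Λ : Finset (Site d)) (ν : Measure (Cfg d)) (B : Set (Cfg d))
    (hB : MeasurableSet B) :
    (kap β Λ ν).real B = ∫ η, ev β Λ η (B.indicator 1) ∂ν := by
  rw [Measure.real, kap_apply β Λ ν B hB, integral_eq_lintegral_of_nonneg_ae]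
  · exact Eventually.of_forall fun η => ev_nonneg_ind β Λ B η
  · exact (measurable_ev β Λ B hB).aestronglyMeasurable

theorem ev_sum (hB : S_BASIC) (β : ℝ) (Λ : Finset (Site d)) (η : Cfg d) {ι : Type*}
    (s : Finset ι) (c : ι → ℝ) (f : ι → Cfg d → ℝ) :
    ev β Λ η (fun σ => ∑ i ∈ s, c i * f i σ) = ∑ i ∈ s, c i * ev β Λ η (f i) := by
  classical
  obtain ⟨_, _, _, _, _, _, _, _, h0, hadd, hmul, _, _⟩ := hB d
  induction s using Finset.induction_on with
  | empty => simp only [Finset.sum_empty]; exact h0 β Λ η 0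
  | insert i s hi ih =>
    simp only [Finset.sum_insert hi]
    rw [hadd, hmul, ih]

/-- the cylinder of `a` on `F` -/
def cyl (F : Finset (Site d)) (a : Cfg d) : Set (Cfg d) := {σ | ∀ v ∈ F, σ v = a v}

theorem measurableSet_cyl (F : Finset (Site d)) (a : Cfg d) : MeasurableSet (cyl F a) := by
  have : cyl F a = ⋂ v ∈ F, (fun σ : Cfg d => σ v) ⁻¹' {a v} := by
    ext σ; simp [cyl]
  rw [this]
  exact Finset.measurableSet_biInter _ fun v _ => measurable_pi_apply v (measurableSet_singleton _)

/-- extension of a pattern -/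
def ext' (F : Finset (Site d)) (a : F → Bool) : Cfg d := glue F a (fun _ => false)

theorem decomp (F : Finset (Site d)) (g : Cfg d → ℝ)
    (hg : ∀ σ σ' : Cfg d, (∀ v ∈ F, σ v = σ' v) → g σ = g σ') (σ : Cfg d) :
    g σ = ∑ a : F → Bool, g (ext' F a) * (cyl F (ext' F a)).indicator 1 σ := by
  classical
  rw [Finset.sum_eq_single (fun v : F => σ v)]
  · have h1 : σ ∈ cyl F (ext' F fun v : F => σ v) := by
      intro v hv
      simp [ext', glue, hv]
    rw [Set.indicator_of_mem h1]
    simp only [Pi.one_apply, mul_one]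
    exact hg _ _ fun v hv => h1 v hv
  · intro a _ ha
    have h1 : σ ∉ cyl F (ext' F a) := by
      intro h
      apply ha
      funext v
      obtain ⟨v, hv⟩ := v
      have := h v hv
      simp only [ext', glue, hv, dif_pos] at this
      exact this.symm
    rw [Set.indicator_of_notMem h1, mul_zero]
  · intro h; exact absurd (Finset.mem_univ _) h

theorem key_lim (hB : S_BASIC) (β : ℝ) (ν : Measure (Cfg d)) (l : Filter ℕ)
    [IsProbabilityMeasure ν]
    (hlim : ∀ (F : Finset (Site d)) (a : Cfg d),
      Tendsto (fun n : ℕ => ev β (ball 0 n) allT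
        ({σ : Cfg d | ∀ v ∈ F, σ v = a v}.indicator 1)) l
        (𝓝 (ν.real {σ : Cfg d | ∀ v ∈ F, σ v = a v})))
    (F : Finset (Site d)) (g : Cfg d → ℝ)
    (hg : ∀ σ σ' : Cfg d, (∀ v ∈ F, σ v = σ' v) → g σ = g σ') :
    Tendsto (fun n : ℕ => ev β (ball 0 n) allT g) l (𝓝 (∫ σ, g σ ∂ν)) := by
  have h1 : g = fun σ => ∑ a ∈ (Finset.univ : Finset (F → Bool)),
      g (ext' F a) * (cyl F (ext' F a)).indicator 1 σ := by
    funext σ; exact decomp F g hg σ
  have h2 : ∀ n : ℕ, ev β (ball 0 n) allT g = ∑ a ∈ (Finset.univ : Finset (F → Bool)),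
      g (ext' F a) * ev β (ball 0 n) allT ((cyl F (ext' F a)).indicator 1) := by
    intro n
    conv_lhs => rw [h1]
    exact ev_sum hB β (ball 0 n) allT _ _ _
  have h3 : ∫ σ, g σ ∂ν = ∑ a ∈ (Finset.univ : Finset (F → Bool)),
      g (ext' F a) * ν.real (cyl F (ext' F a)) := by
    conv_lhs => rw [h1]
    rw [integral_finsetSum]
    · refine Finset.sum_congr rfl fun a _ => ?_
      rw [integral_const_mul]
      congr 1
      exact integral_indicator_one (measurableSet_cyl _ _)
    · intro a _
      refine Integrable.const_mul ?_ _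
      exact (integrable_const (1 : ℝ)).indicator (measurableSet_cyl _ _)
  rw [h3]
  simp_rw [h2]
  exact tendsto_finsetSum _ fun a _ => (hlim F (ext' F a)).const_mul _

theorem gibx (hB : S_BASIC) (hC : S_CONS) (hL : S_LOCB) : S_GIBX := by
  intro d β ν l hν hne hle hlim
  refine ⟨hν, fun Λ B hBm => ?_⟩
  obtain ⟨_, _, _, hball, _, _, _, _, hconst, _, _, _, _⟩ := hB d
  have hone : ∀ η : Cfg d, ev β Λ η (Set.univ.indicator 1) = 1 := by
    intro η
    have : ((Set.univ : Set (Cfg d)).indicator 1 : Cfg d → ℝ) = fun _ => 1 := by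
      funext σ; simp
    rw [this]; exact hconst β Λ η 1
  have hfin : IsFiniteMeasure (kap β Λ ν) := by
    constructor
    rw [kap_apply β Λ ν _ MeasurableSet.univ]
    simp_rw [hone]
    simp
  -- the values on cylinders
  have hcyl : ∀ (F : Finset (Site d)) (a : Cfg d), kap β Λ ν (cyl F a) = ν (cyl F a) := by
    intro F a
    have hr : (kap β Λ ν).real (cyl F a) = ν.real (cyl F a) := by
      rw [kap_real β Λ ν _ (measurableSet_cyl F a)]
      classical
      have hloc : ∀ σ σ' : Cfg d, (∀ v ∈ F ∪ Λ.biUnion nbrs, σ v = σ' v) →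
          ev β Λ σ ((cyl F a).indicator 1) = ev β Λ σ' ((cyl F a).indicator 1) := by
        intro σ σ' h
        refine hL d β Λ F σ σ' _ ?_ ?_ ?_
        · intro u hu v hv _
          exact h v (Finset.mem_union_right _ (Finset.mem_biUnion.2 ⟨u, hu, hv⟩))
        · intro v hv _
          exact h v (Finset.mem_union_left _ hv)
        · intro s s' hs
          have : s ∈ cyl F a ↔ s' ∈ cyl F a := by
            constructor
            · intro h1 v hv; rw [← hs v hv]; exact h1 v hv
            · intro h1 v hv; rw [hs v hv]; exact h1 v hv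
          by_cases h1 : s ∈ cyl F a
          · rw [Set.indicator_of_mem h1, Set.indicator_of_mem (this.1 h1)]
            rfl
          · rw [Set.indicator_of_notMem h1, Set.indicator_of_notMem (fun h2 => h1 (this.2 h2))]
      have t1 := key_lim hB β ν l hlim (F ∪ Λ.biUnion nbrs)
        (fun η => ev β Λ η ((cyl F a).indicator 1)) hloc
      have t2 := hlim F a
      refine tendsto_nhds_unique t1 (t2.congr' ?_)
      have hev : ∀ᶠ n in l, Λ ⊆ ball 0 n := by
        refine hle ?_
        filter_upwards [eventually_ge_atTop (Λ.sup l1)] with n hn v hv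
        rw [hball, sub_zero]
        exact (Finset.le_sup hv).trans hn
      filter_upwards [hev] with n hn
      exact hC d β Λ (ball 0 n) allT ((cyl F a).indicator 1) hn
    rw [Measure.real, Measure.real] at hr
    exact (ENNReal.toReal_eq_toReal_iff' (measure_ne_top _ _) (measure_ne_top _ _)).1 hr
  have heq : ν = kap β Λ ν := by
    have hA : IsProjectiveLimit ν (fun I : Finset (Site d) => ν.map I.restrict) := fun I => rfl
    have hB' : IsProjectiveLimit (kap β Λ ν) (fun I : Finset (Site d) => ν.map I.restrict) := by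
      intro I
      refine Measure.ext_of_singleton ?_
      intro g
      have hm : Measurable (I.restrict : Cfg d → (I → Bool)) := by fun_prop
      rw [Measure.map_apply hm (measurableSet_singleton _),
        Measure.map_apply hm (measurableSet_singleton _)]
      have e : (I.restrict : Cfg d → (I → Bool)) ⁻¹' {g} = cyl I (ext' I g) := by
        ext σ
        simp only [Set.mem_preimage, Set.mem_singleton_iff, cyl, Set.mem_ofPred_eq]
        constructor
        · intro h v hv
          have := congrFun h ⟨v, hv⟩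
          simp only [Finset.restrict] at this
          simp [ext', glue, hv, this]
        · intro h
          funext v
          obtain ⟨v, hv⟩ := v
          have := h v hv
          simp only [ext', glue, hv, dif_pos] at this
          exact this
      rw [e]
      exact hcyl I (ext' I g)
    exact hA.unique hB'
  rw [← kap_real β Λ ν B hBm, ← heq]

end Pool.Agent.Helper98.Isg

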