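import Pool.Agent.Helper70.Isg.Goals2

/-!
# Packet LAWD for MP_600500_pr
-/

open MeasureTheory Filter Topology

noncomputable section

namespace Pool.Agent.Helper98.Isg

open Pool.Agent.Helper70.Isg

theorem measurable_lf (M n : ℕ) : Measurable fun c : ℕ → Fin 3 => lf M c n := by
  induction n with
  | zero => simp only [lf]; exact measurable_const
  | succ n ih =>
    have h1 : Measurable fun c : ℕ → Fin 3 => (lf M c n, c n) := ih.prodMk (measurable_pi_apply n)
    have h2 : (fun c : ℕ → Fin 3 => lf M c (n + 1)) =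
        (fun p : (ℕ × ℕ) × Fin 3 =>
          (let h' := if n % M = 0 ∧ 0 < n ∧ 0 < p.1.1 then p.1.1 + 1 else p.1.1
           if h' = 0 then ((0, p.1.2) : ℕ × ℕ)
           else if p.2 = 0 then (h' - 1, p.1.2)
           else (h', if h' = 1 then p.1.2 + 1 else p.1.2))) ∘ fun c => (lf M c n, c n) := by
      funext c
      simp only [Function.comp, lf]
    rw [h2]
    exact (measurable_of_countable _).comp h1

theorem measurable_Tc (M : ℕ) : Measurable (Tc M) := by
  have hex : MeasurableSet {c : ℕ → Fin 3 | ∃ n, (lf M c n).1 = 0} := by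
    rw [Set.ofPred_exists]
    exact MeasurableSet.iUnion fun n =>
      (measurable_fst.comp (measurable_lf M n)) (measurableSet_singleton 0)
  intro S _
  have h : Tc M ⁻¹' S = ({c : ℕ → Fin 3 | ∃ n, (lf M c n).1 = 0}ᶜ ∩ {_c | 0 ∈ S}) ∪
      ⋃ n, {c : ℕ → Fin 3 | (lf M c n).1 = 0} ∩ (⋂ m, {c | m < n → (lf M c m).1 ≠ 0}) ∩
        {c | (lf M c n).2 ∈ S} := by
    classical
    ext c
    simp only [Set.mem_preimage, Set.mem_union, Set.mem_inter_iff, Set.mem_compl_iff,
      Set.mem_ofPred_eq, Set.mem_iUnion, Set.mem_iInter]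
    by_cases hc : ∃ n, (lf M c n).1 = 0
    · have e : Tc M c = (lf M c (Nat.find hc)).2 := by
        unfold Tc
        rw [dif_pos hc]
      rw [e]
      constructor
      · intro hS
        right
        exact ⟨Nat.find hc, ⟨Nat.find_spec hc, fun m hm => Nat.find_min hc hm⟩, hS⟩
      · rintro (⟨h1, _⟩ | ⟨n, ⟨h1, h2⟩, h3⟩)
        · exact absurd hc h1
        · have : Nat.find hc = n := by
            rw [Nat.find_eq_iff]
            exact ⟨h1, fun m hm => h2 m hm⟩
          rw [this]; exact h3
    · have e : Tc M c = 0 := by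
        unfold Tc
        rw [dif_neg hc]
      rw [e]
      constructor
      · intro hS
        left
        exact ⟨hc, hS⟩
      · rintro (⟨_, h2⟩ | ⟨n, ⟨h1, _⟩, _⟩)
        · exact h2
        · exact absurd ⟨n, h1⟩ hc
  rw [h]
  refine MeasurableSet.union (hex.compl.inter (MeasurableSet.const _)) (MeasurableSet.iUnion ?_)
  intro n
  refine (MeasurableSet.inter ?_ (MeasurableSet.iInter fun m => ?_)).inter ?_
  · exact (measurable_fst.comp (measurable_lf M n)) (measurableSet_singleton 0)
  · by_cases hm : m < n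
    · have : {c : ℕ → Fin 3 | m < n → (lf M c m).1 ≠ 0} = {c | (lf M c m).1 = 0}ᶜ := by
        ext c; simp [hm]
      rw [this]
      exact ((measurable_fst.comp (measurable_lf M m)) (measurableSet_singleton 0)).compl
    · have : {c : ℕ → Fin 3 | m < n → (lf M c m).1 ≠ 0} = Set.univ := by
        ext c; simp [hm]
      rw [this]
      exact MeasurableSet.univ
  · exact (measurable_snd.comp (measurable_lf M n)) (MeasurableSet.of_discrete)

/-- one line -/
def psi1 {L : ℕ} (c : ℤ → Lett L) : ℤ → Fin L × ℕ :=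
  fun z => ((c z).1, Tc 6 fun n => (c (z + ((n / 6 : ℕ) : ℤ))).2 ⟨n % 6, Nat.mod_lt _ (by norm_num)⟩)

theorem measurable_psi1 (L : ℕ) : Measurable (psi1 : (ℤ → Lett L) → ℤ → Fin L × ℕ) := by
  refine measurable_pi_lambda _ fun z => Measurable.prodMk ?_ ?_
  · exact measurable_fst.comp (measurable_pi_apply z)
  · refine (measurable_Tc 6).comp ?_
    refine measurable_pi_lambda _ fun n => ?_
    exact (measurable_pi_apply _).comp (measurable_snd.comp (measurable_pi_apply _))

theorem prod_singleton (L : ℕ) (hL : 0 < L) (hP2 : S_P2) (l : Fin L) (t : ℕ) :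
    ((unifL L).prod geo) {(l, t)} = ENNReal.ofReal (lam t / L) := by
  obtain ⟨h1, h2, h3, _⟩ := hP2 0 L hL
  rw [← Set.singleton_prod_singleton, Measure.prod_prod, h3]
  have : unifL L {l} = (L : ENNReal)⁻¹ := by
    unfold unifL
    rw [Measure.smul_apply, Measure.count_singleton, smul_eq_mul, mul_one]
  rw [this]
  have hL' : (0 : ℝ) < L := by exact_mod_cast hL
  have hl : 0 ≤ lam t := by unfold lam; positivity
  rw [div_eq_mul_inv, mul_comm (lam t), ENNReal.ofReal_mul (by positivity),
    ENNReal.ofReal_inv_of_pos hL', ENNReal.ofReal_natCast]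

theorem prob_pL (L : ℕ) (hL : 0 < L) (hP2 : S_P2) : IsProbabilityMeasure (pL L) := by
  obtain ⟨h1, h2, h3, _⟩ := hP2 0 L hL
  have : IsProbabilityMeasure (((3 ^ 6 : ENNReal)⁻¹) • (Measure.count : Measure (Fin 6 → Fin 3))) := by
    constructor
    rw [Measure.smul_apply, smul_eq_mul]
    have : (Measure.count (Set.univ : Set (Fin 6 → Fin 3))) = 3 ^ 6 := by
      rw [Measure.count_apply MeasurableSet.univ]
      simp [Set.encard_univ]
      norm_num
    rw [this]
    exact ENNReal.inv_mul_cancel (by norm_num) (by norm_num)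
  unfold pL
  infer_instance

theorem law_line (L : ℕ) (hL : 0 < L) (hP2 : S_P2) (hL1 : S_LAW1) :
    (Measure.infinitePi fun _ : ℤ => pL L).map psi1 =
      Measure.infinitePi fun _ : ℤ => (unifL L).prod geo := by
  obtain ⟨h1, h2, h3, _⟩ := hP2 0 L hL
  have hp := prob_pL L hL hP2
  refine (Measure.isProjectiveLimit_infinitePi _).unique ?_ |>.symm
  intro F
  rw [Measure.map_map (by fun_prop) (measurable_psi1 L)]
  refine Measure.ext_of_singleton ?_
  intro g
  rw [Measure.map_apply ((by fun_prop : Measurable F.restrict).comp (measurable_psi1 L))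
    (measurableSet_singleton _), Measure.pi_singleton]
  have : Inhabited (Fin L) := ⟨⟨0, hL⟩⟩
  classical
  have key := hL1 L hL F (fun z => if h : z ∈ F then (g ⟨z, h⟩).1 else default)
    (fun z => if h : z ∈ F then (g ⟨z, h⟩).2 else 0)
  have e1 : (F.restrict ∘ psi1) ⁻¹' {g} = {c : ℤ → Lett L | ∀ z ∈ F,
      (c z).1 = (fun z => if h : z ∈ F then (g ⟨z, h⟩).1 else default) z ∧
      Tc 6 (fun n => (c (z + ((n / 6 : ℕ) : ℤ))).2 ⟨n % 6, Nat.mod_lt _ (by norm_num)⟩) =
        (fun z => if h : z ∈ F then (g ⟨z, h⟩).2 else 0) z} := by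
    ext c
    simp only [Set.mem_preimage, Set.mem_singleton_iff, Function.comp, Set.mem_ofPred_eq]
    constructor
    · intro h z hz
      have := congrFun h ⟨z, hz⟩
      simp only [Finset.restrict, psi1] at this
      simp only [hz, dif_pos]
      rw [← this]
      exact ⟨rfl, rfl⟩
    · intro h
      funext z
      obtain ⟨z, hz⟩ := z
      have := h z hz
      simp only [hz, dif_pos] at this
      simp only [Finset.restrict, psi1]
      exact Prod.ext this.1 this.2
  rw [e1, key, ← Finset.prod_attach F, Finset.univ_eq_attach]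
  refine Finset.prod_congr rfl fun z _ => ?_
  have : g z = ((g z).1, (g z).2) := rfl
  rw [this, prod_singleton L hL hP2]
  simp

/-- cutting the lattice into lines -/
theorem law_lines (d : ℕ) {A : Type} [MeasurableSpace A] (m : Measure A) [IsProbabilityMeasure m] :
    (Measure.infinitePi fun _ : Site (d + 1) => m).map
      (fun y (x : Site d) (z : ℤ) => y (Fin.cons z x)) =
    Measure.infinitePi fun _ : Site d => Measure.infinitePi fun _ : ℤ => m := by
  let e : Site d × ℤ ≃ Site (d + 1) :=
    { toFun := fun p => Fin.cons p.2 p.1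
      invFun := fun v => (Fin.tail v, v 0)
      left_inv := fun p => by simp
      right_inv := fun v => by simp }
  have h1 := Measure.infinitePi_map_piCongrLeft (μ := fun _ : Site d × ℤ => m) e.symm
  have h2 := Measure.infinitePi_map_curry (fun (_ : Site d) (_ : ℤ) => m)
  rw [← h2, ← h1, Measure.map_map (by fun_prop) (by fun_prop)]
  congr 1

theorem law_back (d : ℕ) {A : Type} [MeasurableSpace A] (m : Measure A) [IsProbabilityMeasure m] :
    (Measure.infinitePi fun _ : Site d => Measure.infinitePi fun _ : ℤ => m).map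
      (fun (w : Site d → ℤ → A) (v : Site (d + 1)) => w (Fin.tail v) (v 0)) =
    Measure.infinitePi fun _ : Site (d + 1) => m := by
  rw [← law_lines, Measure.map_map (by fun_prop) (by fun_prop)]
  have : ((fun (w : Site d → ℤ → A) (v : Site (d + 1)) => w (Fin.tail v) (v 0)) ∘
      fun y (x : Site d) (z : ℤ) => y (Fin.cons z x)) = id := by
    funext y v
    simp
  rw [this, Measure.map_id]

theorem Psi_eq {d L : ℕ} : (Psi : (Site (d + 1) → Lett L) → Inp (d + 1) L) =
    (fun (w : Site d → ℤ → Fin L × ℕ) (v : Site (d + 1)) => w (Fin.tail v) (v 0)) ∘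
      (fun (w : Site d → ℤ → Lett L) (x : Site d) => psi1 (w x)) ∘
      (fun y (x : Site d) (z : ℤ) => y (Fin.cons z x)) := by
  funext y v
  simp only [Function.comp, Psi, psi1, Fin.cons_self_tail]
  congr 2
  funext n
  unfold strm
  have : (v + Pi.single 0 ((n / 6 : ℕ) : ℤ) : Site (d + 1)) =
      Fin.cons (v 0 + ((n / 6 : ℕ) : ℤ)) (Fin.tail v) := by
    funext i
    refine Fin.cases ?_ (fun j => ?_) i
    · simp
    · simp [Fin.tail]
  rw [this]

theorem lawd (hL1 : S_LAW1) (hP2 : S_P2) : S_LAWD := by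
  intro d L hL
  have hp := prob_pL L hL hP2
  obtain ⟨h1, h2, h3, _⟩ := hP2 0 L hL
  have m1 : Measurable (fun (w : Site d → ℤ → Lett L) (x : Site d) => psi1 (w x)) :=
    measurable_pi_lambda _ fun x => (measurable_psi1 L).comp (measurable_pi_apply x)
  have m2 : Measurable (fun (w : Site d → ℤ → Fin L × ℕ) (v : Site (d + 1)) =>
      w (Fin.tail v) (v 0)) := by fun_prop
  have m3 : Measurable (fun (y : Site (d + 1) → Lett L) (x : Site d) (z : ℤ) =>
      y (Fin.cons z x)) := by fun_prop
  refine ⟨?_, ?_⟩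
  · rw [Psi_eq]
    exact m2.comp (m1.comp m3)
  · rw [Psi_eq, ← Measure.map_map m2 (m1.comp m3), ← Measure.map_map m1 m3, law_lines,
      Measure.infinitePi_map_pi _ (fun _ => measurable_psi1 L)]
    have : (fun _ : Site d => (Measure.infinitePi fun _ : ℤ => pL L).map psi1) =
        fun _ : Site d => Measure.infinitePi fun _ : ℤ => (unifL L).prod geo := by
      funext _
      exact law_line L hL hP2 hL1
    rw [this, law_back]
    rfl

end Pool.Agent.Helper98.Isg

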